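import Mathlib

/-!
# The closure of a cyclic automorphism of the rational Urysohn space contains an involution

Identify the rational Urysohn space with `ℤ` by means of the cyclic automorphism, and let `N k` be
the distance of `k` and `0`.  By the extension property there are `k₀, k₁, …` with `N (2 kⱼ) → 0`,
`N (kⱼ₊₁ - kⱼ)` summable, and `N k₀` larger than the sum.  The powers `σ ^ kⱼ` converge to an
isometry `g ≠ 1` with `g² = 1`.
-/

set_option autoImplicit false

namespace Pool.Agent.Results.MP_30c7ca_gt.Involution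

open Set Filter Topology

/-- `Q` is the rational Urysohn space, that is, the Fraisse limit of the finite metric spaces with
rational distances: it is countable, all its distances are rational, it contains an isometric copy
of every finite metric space with rational distances, and every isometry between finite subsets
extends to an isometry of `Q` onto itself. -/
structure IsRationalUrysohn (Q : Type) [MetricSpace Q] : Prop where
  countable : Countable Q
  rational : ∀ x y : Q, ∃ r : ℚ, dist x y = r
  universal : ∀ (F : Type) [Finite F] [MetricSpace F], (∀ x y : F, ∃ r : ℚ, dist x y = r) →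
    ∃ e : F → Q, Isometry e
  homogeneous : ∀ (A : Set Q), A.Finite → ∀ f : A → Q, Isometry f →
    ∃ h : Q ≃ᵢ Q, ∀ a : A, h a = f a

/-- `σ` is a cyclic automorphism: its powers act regularly. -/
def IsCyclic {Q : Type} [MetricSpace Q] (σ : Q ≃ᵢ Q) : Prop := ∀ x y : Q, ∃! n : ℤ, (σ ^ n) x = y

/-- The topology of pointwise convergence on the group of surjective isometries. -/
@[reducible] def pointwiseTopology (U : Type) [MetricSpace U] : TopologicalSpace (U ≃ᵢ U) :=
  TopologicalSpace.induced (fun g : U ≃ᵢ U => (g : U → U)) inferInstance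

/-- The closure of the cyclic group generated by `s` in the topology of pointwise convergence. -/
def closureZPowers {U : Type} [MetricSpace U] (s : U ≃ᵢ U) : Set (U ≃ᵢ U) :=
  @closure _ (pointwiseTopology U) (Subgroup.zpowers s : Set (U ≃ᵢ U))

/-! ### The extension property -/

section

variable {Q : Type} [MetricSpace Q]

/-- The one-point extension of a finite subset. -/
@[reducible] noncomputable def optionMetric (A : Set Q) (f : A → ℝ) (hpos : ∀ a, 0 < f a)
    (h1 : ∀ a b : A, |f a - f b| ≤ dist a b) (h2 : ∀ a b : A, dist a b ≤ f a + f b) :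
    MetricSpace (Option A) where
  dist x y := match x, y with
    | none, none => 0
    | none, some a => f a
    | some a, none => f a
    | some a, some b => dist a b
  dist_self x := by
    rcases x with _ | a
    · rfl
    · exact dist_self a
  dist_comm x y := by
    rcases x with _ | a <;> rcases y with _ | b
    · rfl
    · rfl
    · rfl
    · exact dist_comm a b
  dist_triangle x y z := by
    rcases x with _ | a <;> rcases y with _ | b <;> rcases z with _ | c
    · change (0 : ℝ) ≤ 0 + 0
      norm_num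
    · change f c ≤ 0 + f c
      linarith
    · change (0 : ℝ) ≤ f b + f b
      linarith [hpos b]
    · change f c ≤ f b + dist b c
      have := h1 b c
      rw [abs_le] at this
      linarith [this.1]
    · change f a ≤ f a + 0
      linarith
    · change dist a c ≤ f a + f c
      exact h2 a c
    · change f a ≤ dist a b + f b
      have := h1 a b
      rw [abs_le] at this
      linarith [this.2]
    · exact dist_triangle a b c
  eq_of_dist_eq_zero {x y} h := by
    rcases x with _ | a <;> rcases y with _ | b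
    · rfl
    · exact absurd h (hpos b).ne'
    · exact absurd h (hpos a).ne'
    · exact congrArg some (eq_of_dist_eq_zero h)

/-- The extension property for subsets. -/
lemma exists_extension (hQ : IsRationalUrysohn Q) (A : Set Q) (hA : A.Finite) (f : A → ℝ)
    (hr : ∀ a, ∃ r : ℚ, f a = r) (hpos : ∀ a, 0 < f a)
    (h1 : ∀ a b : A, |f a - f b| ≤ dist a b) (h2 : ∀ a b : A, dist a b ≤ f a + f b) :
    ∃ x : Q, ∀ a : A, dist x a = f a := by
  have : Finite A := hA
  let inst : MetricSpace (Option A) := optionMetric A f hpos h1 h2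
  obtain ⟨e, he⟩ := hQ.universal (Option A) (by
    intro x y
    rcases x with _ | a <;> rcases y with _ | b
    · exact ⟨0, by simp⟩
    · exact hr b
    · exact hr a
    · exact hQ.rational a b)
  obtain ⟨h, hh⟩ := hQ.homogeneous A hA (fun a => e (some a))
    (Isometry.of_dist_eq fun a b => he.dist_eq (some a) (some b))
  refine ⟨h.symm (e none), fun a => ?_⟩
  rw [← h.dist_eq, h.apply_symm_apply, hh, he.dist_eq]
  rfl

/-- The extension property for families. -/
lemma exists_extension_family (hQ : IsRationalUrysohn Q) {ι : Type} [Finite ι] (p : ι → Q)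
    (r : ι → ℚ) (hpos : ∀ i, 0 < r i) (h1 : ∀ i j, |(r i : ℝ) - r j| ≤ dist (p i) (p j))
    (h2 : ∀ i j, dist (p i) (p j) ≤ (r i : ℝ) + r j) :
    ∃ x : Q, ∀ i, dist x (p i) = r i := by
  have hs : ∀ a : range p, ∃ i, p i = a := fun a => a.2
  choose s hs using hs
  obtain ⟨x, hx⟩ := exists_extension hQ (range p) (finite_range p) (fun a => (r (s a) : ℝ))
    (fun a => ⟨_, rfl⟩) (fun a => by exact_mod_cast hpos (s a))
    (fun a b => by
      have := h1 (s a) (s b)
      rw [hs, hs] at this
      exact this)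
    (fun a b => by
      have := h2 (s a) (s b)
      rw [hs, hs] at this
      exact this)
  refine ⟨x, fun i => ?_⟩
  have h3 := hx ⟨p i, mem_range_self i⟩
  have h4 := h1 (s ⟨p i, mem_range_self i⟩) i
  rw [hs, dist_self] at h4
  have h5 := abs_nonpos_iff.1 h4
  change dist x (p i) = _ at h3
  rw [h3]
  linarith

end

/-! ### Norms on the integers with the extension property -/

/-- An invariant metric on `ℤ`, with rational values and the extension property. -/
structure ExtNorm (N : ℤ → ℝ) : Prop where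
  zero : N 0 = 0
  nonneg : ∀ n, 0 ≤ N n
  neg : ∀ n, N (-n) = N n
  add : ∀ m n, N (m + n) ≤ N m + N n
  rational : ∀ n, ∃ r : ℚ, N n = r
  ext : ∀ {ι : Type} [Finite ι] (p : ι → ℤ) (r : ι → ℚ), (∀ i, 0 < r i) →
    (∀ i j, |(r i : ℝ) - r j| ≤ N (p i - p j)) → (∀ i j, N (p i - p j) ≤ (r i : ℝ) + r j) →
    ∃ n, ∀ i, N (n - p i) = r i

lemma ExtNorm.sub_comm {N : ℤ → ℝ} (hN : ExtNorm N) (m n : ℤ) : N (m - n) = N (n - m) := by
  rw [← hN.neg, neg_sub]

/-- Growth: if `N (2 a) ≤ t`, then there is `a'` with `N (2 a') ≤ t` and `N a' = N a + t / 2`. -/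
lemma ExtNorm.grow {N : ℤ → ℝ} (hN : ExtNorm N) {t : ℚ} (ht : 0 < t) {a : ℤ} (ha : N (2 * a) ≤ t) :
    ∃ a', N (2 * a') ≤ t ∧ N a' = N a + t / 2 := by
  obtain ⟨u, hu⟩ := hN.rational a
  have hu0 : 0 ≤ u := by
    have := hN.nonneg a
    rw [hu] at this
    exact_mod_cast this
  have ht' : (0 : ℝ) < t := by exact_mod_cast ht
  have hu' : (0 : ℝ) ≤ u := by exact_mod_cast hu0
  have e1 : N (a - -a) = N (2 * a) := by congr 1; ring
  have e2 : N (-a - a) = N (2 * a) := by rw [← hN.neg]; congr 1; ring
  have e3 : N (a - 0) = u := by rw [sub_zero, hu]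
  have e4 : N (0 - a) = u := by rw [zero_sub, hN.neg, hu]
  have e5 : N (-a - 0) = u := by rw [sub_zero, hN.neg, hu]
  have e6 : N (0 - -a) = u := by rw [zero_sub, neg_neg, hu]
  have hnn := hN.nonneg (2 * a)
  obtain ⟨b, hb⟩ := hN.ext (ι := Fin 3) ![a, -a, 0] ![t / 2, t / 2, u + t / 2]
    (by
      intro i
      fin_cases i <;> simp <;> positivity)
    (by
      intro i j
      fin_cases i <;> fin_cases j <;>
        simp only [Fin.zero_eta, Fin.mk_one, Fin.reduceFinMk, Matrix.cons_val_zero,
          Matrix.cons_val_one, Matrix.cons_val, sub_self, abs_zero, hN.zero, le_refl, e1, e2, e3,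
          e4, e5, e6] <;> push_cast <;> (try rw [abs_le]) <;> (try constructor) <;> linarith)
    (by
      intro i j
      fin_cases i <;> fin_cases j <;>
        simp only [Fin.zero_eta, Fin.mk_one, Fin.reduceFinMk, Matrix.cons_val_zero,
          Matrix.cons_val_one, Matrix.cons_val, sub_self, hN.zero, e1, e2, e3,
          e4, e5, e6] <;> push_cast <;> linarith)
  have h0 : N (b - a) = t / 2 := by
    have := hb 0
    simpa using this
  have h1 : N (b - -a) = t / 2 := by
    have := hb 1
    simpa using this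
  have h2 : N (b - 0) = u + t / 2 := by
    have := hb 2
    simpa using this
  refine ⟨b, ?_, ?_⟩
  · have h3 := hN.add (b - a) (b - -a)
    have h4 : b - a + (b - -a) = 2 * b := by ring
    rw [h4, h0, h1] at h3
    linarith
  · rw [sub_zero] at h2
    rw [h2, hu]

/-- There are elements with `N (2 a) ≤ t` of norm `k t / 2`. -/
lemma ExtNorm.exists_norm {N : ℤ → ℝ} (hN : ExtNorm N) {t : ℚ} (ht : 0 < t) (k : ℕ) :
    ∃ a, N (2 * a) ≤ t ∧ N a = k * (t / 2) := by
  induction k with
  | zero =>
    refine ⟨0, ?_, ?_⟩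
    · rw [mul_zero, hN.zero]
      exact_mod_cast ht.le
    · rw [hN.zero]
      simp
  | succ k ih =>
    obtain ⟨a, ha, ha'⟩ := ih
    obtain ⟨b, hb, hb'⟩ := hN.grow ht ha
    refine ⟨b, hb, ?_⟩
    rw [hb', ha']
    push_cast
    ring

/-- One step of the refinement. -/
lemma ExtNorm.step {N : ℤ → ℝ} (hN : ExtNorm N) {s t : ℚ} (hs : 0 < s) (hst : s ≤ t) {x a : ℤ}
    (hx : N (2 * x) ≤ t) (ha : N (2 * a) ≤ s) {D : ℚ} (hD1 : N (x - a) ≤ D) (hD2 : N (x + a) ≤ D)
    (hD : N (x - a) = D ∨ N (x + a) = D) (hD3 : (t + s) / 2 ≤ D) :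
    ∃ a', N (2 * a') ≤ s ∧ N (x - a') ≤ D - s / 2 ∧ N (x + a') ≤ D - s / 2 := by
  have hs' : (0 : ℝ) < s := by exact_mod_cast hs
  have hst' : (s : ℝ) ≤ t := by exact_mod_cast hst
  have hD3' : ((t : ℝ) + s) / 2 ≤ D := by exact_mod_cast hD3
  -- lower bounds for the distances
  have hl1 : (D : ℝ) - s ≤ N (x - a) := by
    rcases hD with h | h
    · linarith
    · have := hN.add (x - a) (2 * a)
      have e : x - a + 2 * a = x + a := by ring
      rw [e] at this
      linarith
  have hl2 : (D : ℝ) - s ≤ N (x + a) := by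
    rcases hD with h | h
    · have := hN.add (x + a) (-(2 * a))
      have e : x + a + -(2 * a) = x - a := by ring
      rw [e, hN.neg] at this
      linarith
    · linarith
  have e1 : N (a - -a) = N (2 * a) := by congr 1; ring
  have e2 : N (-a - a) = N (2 * a) := by rw [← hN.neg]; congr 1; ring
  have e3 : N (x - -x) = N (2 * x) := by congr 1; ring
  have e4 : N (-x - x) = N (2 * x) := by rw [← hN.neg]; congr 1; ring
  have e5 : N (a - x) = N (x - a) := hN.sub_comm _ _
  have e6 : N (x - -a) = N (x + a) := by congr 1; ring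
  have e7 : N (-a - x) = N (x + a) := by rw [hN.sub_comm, e6]
  have e8 : N (a - -x) = N (x + a) := by congr 1; ring
  have e9 : N (-x - a) = N (x + a) := by rw [hN.sub_comm, e8]
  have e10 : N (-a - -x) = N (x - a) := by congr 1; ring
  have e11 : N (-x - -a) = N (x - a) := by rw [hN.sub_comm, e10]
  have n1 := hN.nonneg (2 * a)
  have n2 := hN.nonneg (2 * x)
  obtain ⟨b, hb⟩ := hN.ext (ι := Fin 4) ![a, -a, x, -x] ![s / 2, s / 2, D - s / 2, D - s / 2]
    (by
      have h3 : 0 < D - s / 2 := by linarith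
      intro i
      fin_cases i <;> simp only [Fin.zero_eta, Fin.mk_one, Fin.reduceFinMk, Matrix.cons_val_zero,
          Matrix.cons_val_one, Matrix.cons_val] <;> positivity)
    (by
      intro i j
      fin_cases i <;> fin_cases j <;>
        simp only [Fin.zero_eta, Fin.mk_one, Fin.reduceFinMk, Matrix.cons_val_zero,
          Matrix.cons_val_one, Matrix.cons_val, sub_self, abs_zero, hN.zero, le_refl, e1, e2, e3,
          e4, e5, e6, e7, e8, e9, e10, e11] <;> push_cast <;> (try rw [abs_le]) <;>
          (try constructor) <;> linarith)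
    (by
      intro i j
      fin_cases i <;> fin_cases j <;>
        simp only [Fin.zero_eta, Fin.mk_one, Fin.reduceFinMk, Matrix.cons_val_zero,
          Matrix.cons_val_one, Matrix.cons_val, sub_self, hN.zero, e1, e2, e3,
          e4, e5, e6, e7, e8, e9, e10, e11] <;> push_cast <;> linarith)
  have h0 : N (b - a) = s / 2 := by
    have := hb 0
    simpa using this
  have h1 : N (b - -a) = s / 2 := by
    have := hb 1
    simpa using this
  have h2 : N (b - x) = D - s / 2 := by
    have := hb 2
    simpa using this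
  have h3 : N (b - -x) = D - s / 2 := by
    have := hb 3
    simpa using this
  refine ⟨b, ?_, ?_, ?_⟩
  · have h4 := hN.add (b - a) (b - -a)
    have h5 : b - a + (b - -a) = 2 * b := by ring
    rw [h5, h0, h1] at h4
    linarith
  · rw [hN.sub_comm, h2]
  · have h6 : x + b = b - -x := by ring
    rw [h6, h3]

/-- The refinement: near an element `x` with `N (2 x) ≤ t` there is an element `a` with
`N (2 a) ≤ s`. -/
lemma ExtNorm.refine' {N : ℤ → ℝ} (hN : ExtNorm N) {s t : ℚ} (hs : 0 < s) (hst : s ≤ t) {x : ℤ}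
    (hx : N (2 * x) ≤ t) : ∃ a, N (2 * a) ≤ s ∧ N (x - a) ≤ (t + s) / 2 := by
  have key : ∀ (k : ℕ) (a : ℤ), N (2 * a) ≤ s → N (x - a) ≤ (t + s) / 2 + k * (s / 2) →
      N (x + a) ≤ (t + s) / 2 + k * (s / 2) → ∃ a, N (2 * a) ≤ s ∧ N (x - a) ≤ (t + s) / 2 := by
    intro k
    induction k with
    | zero =>
      intro a h1 h2 _
      exact ⟨a, h1, by simpa using h2⟩
    | succ k ih =>
      intro a h1 h2 h3
      obtain ⟨r₁, hr₁⟩ := hN.rational (x - a)
      obtain ⟨r₂, hr₂⟩ := hN.rational (x + a)
      by_cases h4 : (t + s) / 2 ≤ max r₁ r₂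
      · obtain ⟨b, hb1, hb2, hb3⟩ := hN.step (D := max r₁ r₂) hs hst hx h1
          (by rw [hr₁]; exact_mod_cast le_max_left _ _)
          (by rw [hr₂]; exact_mod_cast le_max_right _ _)
          (by
            rcases le_total r₁ r₂ with h | h
            · right
              rw [max_eq_right h, hr₂]
            · left
              rw [max_eq_left h, hr₁]) h4
        have h5 : ((max r₁ r₂ : ℚ) : ℝ) ≤ (t + s) / 2 + (k + 1 : ℕ) * (s / 2) := by
          rw [hr₁] at h2
          rw [hr₂] at h3
          rcases le_total r₁ r₂ with h | h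
          · rw [max_eq_right h]
            exact h3
          · rw [max_eq_left h]
            exact h2
        push_cast at h5
        refine ih b hb1 ?_ ?_
        · push_cast at hb2
          linarith
        · push_cast at hb3
          linarith
      · push Not at h4
        refine ⟨a, h1, ?_⟩
        have h5 : r₁ ≤ (t + s) / 2 := (le_max_left _ _).trans h4.le
        rw [hr₁]
        exact_mod_cast h5
  have hs' : (0 : ℝ) < s := by exact_mod_cast hs
  have hst' : (s : ℝ) ≤ t := by exact_mod_cast hst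
  obtain ⟨k, hk⟩ := exists_nat_gt (N x / (s / 2))
  rw [div_lt_iff₀ (by positivity)] at hk
  refine key k 0 ?_ ?_ ?_
  · rw [mul_zero, hN.zero]
    exact hs'.le
  · rw [sub_zero]
    linarith
  · rw [add_zero]
    linarith

/-- The sequence. -/
lemma ExtNorm.exists_seq {N : ℤ → ℝ} (hN : ExtNorm N) :
    ∃ k : ℕ → ℤ, N (k 0) = 1 ∧ (∀ n, N (2 * k n) ≤ (1 / 2) ^ (n + 1)) ∧
      ∀ n, N (k n - k (n + 1)) ≤ 3 / 8 * (1 / 2) ^ n := by
  have hstep : ∀ (n : ℕ) (x : {x : ℤ // N (2 * x) ≤ (1 / 2) ^ (n + 1)}),
      ∃ y : {x : ℤ // N (2 * x) ≤ (1 / 2) ^ (n + 1 + 1)}, N (x.1 - y.1) ≤ 3 / 8 * (1 / 2) ^ n := by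
    intro n x
    obtain ⟨y, hy1, hy2⟩ := hN.refine' (s := (1 / 2) ^ (n + 1 + 1)) (t := (1 / 2) ^ (n + 1))
      (by positivity) (by
        rw [pow_succ (1 / 2 : ℚ) (n + 1)]
        have : (0 : ℚ) < (1 / 2) ^ (n + 1) := by positivity
        linarith) (x := x.1) (by
        have := x.2
        push_cast
        exact this)
    push_cast at hy1 hy2
    refine ⟨⟨y, hy1⟩, hy2.trans ?_⟩
    rw [pow_succ, pow_succ, pow_succ]
    have : (0 : ℝ) < (1 / 2) ^ n := by positivity
    linarith
  choose g hg using hstep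
  obtain ⟨a, ha, ha'⟩ := hN.exists_norm (t := 1 / 2) (by norm_num) 4
  let f : (n : ℕ) → {x : ℤ // N (2 * x) ≤ (1 / 2) ^ (n + 1)} := fun n =>
    Nat.rec ⟨a, by
      push_cast at ha
      simpa using ha⟩ (fun n x => g n x) n
  refine ⟨fun n => (f n).1, ?_, fun n => (f n).2, fun n => hg n (f n)⟩
  change N a = 1
  rw [ha']
  push_cast
  norm_num

/-! ### The involution -/

section

variable {Q : Type} [MetricSpace Q]

/-- The norm of the integer `n`. -/
noncomputable def norm (σ : Q ≃ᵢ Q) (x₀ : Q) (n : ℤ) : ℝ := dist ((σ ^ n) x₀) x₀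

lemma dist_pow (σ : Q ≃ᵢ Q) (x₀ : Q) (m n : ℤ) :
    dist ((σ ^ m) x₀) ((σ ^ n) x₀) = norm σ x₀ (m - n) := by
  have h : (σ ^ m) x₀ = (σ ^ n) ((σ ^ (m - n)) x₀) := by
    rw [← IsometryEquiv.mul_apply, ← zpow_add]
    congr 2
    ring
  rw [h, (σ ^ n).dist_eq]
  rfl

lemma extNorm (hQ : IsRationalUrysohn Q) {σ : Q ≃ᵢ Q} (hσ : IsCyclic σ) (x₀ : Q) :
    ExtNorm (norm σ x₀) where
  zero := by
    rw [norm, zpow_zero]
    exact dist_self x₀
  nonneg n := dist_nonneg
  neg n := by
    have h1 := dist_pow σ x₀ 0 n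
    have h2 := dist_pow σ x₀ n 0
    rw [zero_sub] at h1
    rw [sub_zero] at h2
    rw [← h1, ← h2, dist_comm]
  add m n := by
    have h1 := dist_pow σ x₀ (m + n) n
    have h2 := dist_pow σ x₀ (m + n) 0
    have h3 := dist_pow σ x₀ n 0
    rw [sub_zero] at h2 h3
    rw [add_sub_cancel_right] at h1
    rw [← h1, ← h2, ← h3]
    exact dist_triangle _ _ _
  rational n := hQ.rational _ _
  ext p r hpos h1 h2 := by
    obtain ⟨x, hx⟩ := exists_extension_family hQ (fun i => (σ ^ p i) x₀) r hpos
      (fun i j => by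
        rw [dist_pow]
        exact h1 i j)
      (fun i j => by
        rw [dist_pow]
        exact h2 i j)
    obtain ⟨n, hn, -⟩ := hσ x₀ x
    refine ⟨n, fun i => ?_⟩
    rw [← dist_pow, hn]
    exact hx i

end

/-- For every cyclic automorphism `σ` of the rational Urysohn space `Q`, with extension `s` to the
completion `U` of `Q`, the closure of the cyclic group generated by `s` in the group of surjective
isometries of `U`, with the topology of pointwise convergence, contains an involution. -/
theorem result (Q : Type) [MetricSpace Q] (hQ : IsRationalUrysohn Q) (σ : Q ≃ᵢ Q) (hσ : IsCyclic σ)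
    (U : Type) [MetricSpace U] [CompleteSpace U] (ι : Q → U) (hι : Isometry ι)
    (hdense : DenseRange ι) (s : U ≃ᵢ U) (hs : ∀ x, s (ι x) = ι (σ x)) :
    ∃ g ∈ closureZPowers s, g ≠ 1 ∧ g ^ 2 = 1 := by
  -- `Q` is non-empty
  obtain ⟨e, -⟩ := hQ.universal Unit fun x y => ⟨0, by simp⟩
  set x₀ := e () with hx₀
  have hN := extNorm hQ hσ x₀
  obtain ⟨k, hk0, hk1, hk2⟩ := hN.exists_seq
  -- the powers of `s`
  have hpow : ∀ (n : ℤ) (x : Q), (s ^ n) (ι x) = ι ((σ ^ n) x) := by
    have h1 : ∀ x : Q, s⁻¹ (ι x) = ι (σ⁻¹ x) := by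
      intro x
      apply s.injective
      rw [hs]
      have h2 : s (s⁻¹ (ι x)) = ι x := s.apply_symm_apply _
      have h3 : σ (σ⁻¹ x) = x := σ.apply_symm_apply _
      rw [h2, h3]
    intro n
    induction n using Int.induction_on with
    | zero => intro x; rfl
    | succ n ih =>
      intro x
      rw [zpow_add_one, zpow_add_one, IsometryEquiv.mul_apply, IsometryEquiv.mul_apply, hs, ih]
    | pred n ih =>
      intro x
      rw [zpow_sub_one, zpow_sub_one, IsometryEquiv.mul_apply, IsometryEquiv.mul_apply, h1, ih]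
  have hdist : ∀ (m n : ℤ) (y : U), dist ((s ^ m) y) ((s ^ n) y) = norm σ x₀ (m - n) := by
    intro m n y
    refine hdense.induction_on (p := fun y => dist ((s ^ m) y) ((s ^ n) y) = norm σ x₀ (m - n))
      y ?_ ?_
    · exact isClosed_eq (((s ^ m).continuous).dist ((s ^ n).continuous)) continuous_const
    · intro x
      rw [hpow, hpow, hι.dist_eq]
      obtain ⟨j, hj, -⟩ := hσ x₀ x
      rw [← hj, ← IsometryEquiv.mul_apply, ← IsometryEquiv.mul_apply, ← zpow_add, ← zpow_add,
        dist_pow]
      congr 1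
      ring
  have hcauchy : ∀ y : U, ∀ n, dist ((s ^ k n) y) ((s ^ k (n + 1)) y) ≤ 3 / 8 * (1 / 2) ^ n := by
    intro y n
    rw [hdist]
    exact hk2 n
  have hlim : ∀ y : U, ∃ z, Tendsto (fun n => (s ^ k n) y) atTop (𝓝 z) := fun y =>
    cauchySeq_tendsto_of_complete (cauchySeq_of_le_geometric _ _ (by norm_num) (hcauchy y))
  choose g hg using hlim
  have hdg : ∀ y : U, ∀ n, dist ((s ^ k n) y) (g y) ≤ 3 / 4 * (1 / 2) ^ n := by
    intro y n
    refine (dist_le_of_le_geometric_of_tendsto _ _ (by norm_num) (hcauchy y) (hg y) n).trans ?_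
    have e : (1 : ℝ) - 1 / 2 = 1 / 2 := by norm_num
    rw [e, div_le_iff₀ (by norm_num)]
    have : (0 : ℝ) < (1 / 2) ^ n := by positivity
    linarith
  have hiso : Isometry g := by
    refine Isometry.of_dist_eq fun y z => ?_
    have h1 := (hg y).dist (hg z)
    have h2 : (fun n => dist ((s ^ k n) y) ((s ^ k n) z)) = fun _ => dist y z := by
      funext n
      rw [(s ^ k n).dist_eq]
    rw [h2] at h1
    exact tendsto_nhds_unique h1 tendsto_const_nhds
  have hgg : ∀ y, g (g y) = y := by
    intro y
    have hbound : ∀ n : ℕ, dist (g (g y)) y ≤ 2 * (1 / 2) ^ n := by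
      intro n
      have h1 := hdg (g y) n
      have h2 : dist ((s ^ k n) (g y)) ((s ^ k n) ((s ^ k n) y)) ≤
          3 / 4 * (1 / 2) ^ n := by
        rw [(s ^ k n).dist_eq, dist_comm]
        exact hdg y n
      have h3 : dist ((s ^ k n) ((s ^ k n) y)) y ≤ (1 / 2) ^ (n + 1) := by
        rw [← IsometryEquiv.mul_apply, ← zpow_add]
        have h4 := hdist (k n + k n) 0 y
        rw [zpow_zero, sub_zero] at h4
        have h5 : dist ((s ^ (k n + k n)) y) y = norm σ x₀ (k n + k n) := h4
        rw [h5, ← two_mul]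
        exact hk1 n
      have h4 := dist_triangle4 (g (g y)) ((s ^ k n) (g y)) ((s ^ k n) ((s ^ k n) y)) y
      rw [dist_comm] at h1
      rw [pow_succ] at h3
      have : (0 : ℝ) < (1 / 2) ^ n := by positivity
      linarith
    have hz : Tendsto (fun n : ℕ => 2 * (1 / 2 : ℝ) ^ n) atTop (𝓝 0) := by
      have := (tendsto_pow_atTop_nhds_zero_of_lt_one (r := (1 / 2 : ℝ)) (by norm_num)
        (by norm_num)).const_mul 2
      rwa [mul_zero] at this
    have := ge_of_tendsto' hz hbound
    exact dist_le_zero.1 this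
  -- the involution
  let G : U ≃ᵢ U := IsometryEquiv.mk' g g hgg hiso
  have hG : ∀ y, G y = g y := fun y => rfl
  refine ⟨G, ?_, ?_, ?_⟩
  · let _ := pointwiseTopology U
    refine mem_closure_of_tendsto (f := fun n => s ^ k n) (b := atTop) ?_
      (Eventually.of_forall fun n => Subgroup.zpow_mem_zpowers s (k n))
    rw [nhds_induced, tendsto_comap_iff, tendsto_pi_nhds]
    exact hg
  · intro h
    have h1 : g (ι x₀) = ι x₀ := by
      rw [← hG, h]
      rfl
    have h2 := hdg (ι x₀) 0
    rw [h1, hpow, hι.dist_eq] at h2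
    have h3 : dist ((σ ^ k 0) x₀) x₀ = 1 := hk0
    rw [h3] at h2
    norm_num at h2
  · rw [pow_two]
    ext y
    rw [IsometryEquiv.mul_apply, hG, hG, hgg]
    rfl

end Pool.Agent.Results.MP_30c7ca_gt.Involution
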